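import Pool.Agent.H78.Lune

/-!
# Elations of the dual Lueneburg plane of order 64 (MP_fa71e0_co)

In the dual of the Lueneburg plane of order 64 the identity is the only elation whose axis is the line `o`
(the affine point `0` of the Lueneburg plane).
-/

set_option autoImplicit false
set_option linter.unusedSectionVars false
set_option linter.unusedSimpArgs false

namespace Pool.Agent.Lib.H30Q

open Pool.Agent.H78Lune

variable {F : Type} [Field F]

/-- A collineation of the dual plane. -/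
def Col (σ : Equiv.Perm (Ln F) × Equiv.Perm (Pt F)) : Prop :=
  ∀ (p : Ln F) (m : Pt F), p ∈ m ↔ σ.1 p ∈ σ.2 m

/-- An elation of the dual plane with axis `o` and centre `c`. -/
def Ela (c : Ln F) (σ : Equiv.Perm (Ln F) × Equiv.Perm (Pt F)) : Prop :=
  Col σ ∧ (∀ p : Ln F, p ∈ (o : Pt F) → σ.1 p = p) ∧ (∀ m : Pt F, c ∈ m → σ.2 m = m)

theorem Ela.conj {c : Ln F} {σ g : Equiv.Perm (Ln F) × Equiv.Perm (Pt F)} (hσ : Ela c σ)
    (hg : g ∈ grp (o : Pt F)) : Ela (g.1 c) (g * σ * g⁻¹) := by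
  obtain ⟨h1, h2, h3⟩ := hσ
  have hg' : g⁻¹ ∈ grp (o : Pt F) := inv_mem hg
  obtain ⟨g1, g2⟩ := mem_grp.mp hg
  obtain ⟨g3, g4⟩ := mem_grp.mp hg'
  refine ⟨fun p m => ?_, fun p hp => ?_, fun m hm => ?_⟩
  · rw [g3 p m, h1, g1]
    rfl
  · have h4 : g⁻¹.1 p ∈ (o : Pt F) := by
      have := (g3 p o).mp hp
      rwa [g4] at this
    have h5 := h2 _ h4
    change g.1 (σ.1 (g⁻¹.1 p)) = p
    rw [h5]
    simp
  · have h4 : c ∈ g⁻¹.2 m := by
      have := (g3 (g.1 c) m).mp hm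
      have h5 : g⁻¹.1 (g.1 c) = c := by simp
      rwa [h5] at this
    have h5 := h3 _ h4
    change g.2 (σ.2 (g⁻¹.2 m)) = m
    rw [h5]
    simp

/-- Scalar multiplication on the points. -/
def sPt (u : F) : Pt F → Pt F
  | .aff u1 u2 v1 v2 => .aff (u * u1) (u * u2) (u * v1) (u * v2)
  | .inf x y => .inf x y
  | .top => .top

/-- Scalar multiplication on the lines. -/
def sLn (u : F) : Ln F → Ln F
  | .gen x y k1 k2 => .gen x y (u * k1) (u * k2)
  | .vert k1 k2 => .vert (u * k1) (u * k2)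
  | .lin => .lin

theorem sPt_sPt {u v : F} (h : v * u = 1) (p : Pt F) : sPt v (sPt u p) = p := by
  cases p
  case aff u1 u2 v1 v2 =>
    simp only [sPt, Pt.aff.injEq, ← mul_assoc, h, one_mul, and_self]
  case inf => rfl
  case top => rfl

theorem sLn_sLn {u v : F} (h : v * u = 1) (p : Ln F) : sLn v (sLn u p) = p := by
  cases p
  case gen x y k1 k2 =>
    simp only [sLn, Ln.gen.injEq, ← mul_assoc, h, one_mul, and_self]
  case vert k1 k2 =>
    simp only [sLn, Ln.vert.injEq, ← mul_assoc, h, one_mul, and_self]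
  case lin => rfl

theorem s_inc (u : F) (p : Pt F) (l : Ln F) (h : inc p l) : inc (sPt u p) (sLn u l) := by
  cases p <;> cases l <;> simp only [inc, sPt, sLn] at h ⊢
  case aff.gen u1 u2 v1 v2 x y k1 k2 =>
    exact ⟨by linear_combination u * h.1, by linear_combination u * h.2⟩
  case aff.vert u1 u2 v1 v2 k1 k2 =>
    exact ⟨by rw [h.1], by rw [h.2]⟩
  case inf.gen => exact h

/-- The scalar collineation. -/
def scal (u v : F) (h : v * u = 1) : Equiv.Perm (Ln F) × Equiv.Perm (Pt F) :=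
  (⟨sLn u, sLn v, sLn_sLn h, sLn_sLn (by rw [mul_comm]; exact h)⟩,
   ⟨sPt u, sPt v, sPt_sPt h, sPt_sPt (by rw [mul_comm]; exact h)⟩)

theorem scal_mem (u v : F) (h : v * u = 1) : scal u v h ∈ grp (o : Pt F) := by
  rw [mem_grp]
  refine ⟨fun p m => ⟨fun h' => s_inc u m p h', fun h' => ?_⟩, ?_⟩
  · have h2 := s_inc v _ _ ((mem_iff _ _).mp h')
    change inc (sPt v (sPt u m)) (sLn v (sLn u p)) at h2
    rw [sPt_sPt h, sLn_sLn h] at h2
    exact h2
  · change sPt u (o : Pt F) = o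
    simp [sPt, o]

section alg

variable (h2 : (2 : F) = 0) (h8 : ∀ x : F, x ^ 8 = x)
include h2 h8

/-- The line at infinity is not moved to `vert 0 1`. -/
theorem no_sigma' {t : F} (ht : t ^ 2 + t ≠ 0) (σ : Equiv.Perm (Ln F) × Equiv.Perm (Pt F))
    (hσ : Ela (.vert 0 0) σ) (hx : σ.1 .lin = .vert 0 1) : False := by
  obtain ⟨hσ, hl, hc⟩ := hσ
  -- image of the infinite points
  have s1 : ∀ x y : F, σ.2 (.inf x y) = .aff 0 1 (w x y) y := by
    intro x y
    have e1 : (.gen x y 0 0 : Ln F) ∈ σ.2 (.inf x y) := by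
      have := (hσ (.gen x y 0 0) (.inf x y)).mp ⟨rfl, rfl⟩
      rwa [hl (.gen x y 0 0) (by rw [mem_iff]; simp [o, inc])] at this
    have e2 : (.vert 0 1 : Ln F) ∈ σ.2 (.inf x y) := by
      have := (hσ .lin (.inf x y)).mp trivial
      rwa [hx] at this
    generalize σ.2 (.inf x y) = q at *
    rw [mem_iff] at e1 e2
    cases q <;> simp only [inc] at e1 e2
    case aff u1 u2 v1 v2 =>
      obtain ⟨rfl, rfl⟩ := e2
      rw [Pt.aff.injEq]
      refine ⟨rfl, rfl, ?_, ?_⟩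
      · linear_combination e1.1
      · linear_combination e1.2
  -- image of the lines
  have s2 : ∀ x y k1 k2 : F, ∃ x' y' : F, σ.1 (.gen x y k1 k2) = .gen x' y' k1 k2 ∧
      w x y = w x' y' + k1 ∧ y = y' + k2 := by
    intro x y k1 k2
    have e1 : σ.1 (.gen x y k1 k2) ∈ (.aff 0 1 (w x y) y : Pt F) := by
      have := (hσ (.gen x y k1 k2) (.inf x y)).mp ⟨rfl, rfl⟩
      rwa [s1] at this
    have e2 : σ.1 (.gen x y k1 k2) ∈ (.aff 0 0 k1 k2 : Pt F) := by
      have := (hσ (.gen x y k1 k2) (.aff 0 0 k1 k2)).mp (by rw [mem_iff]; simp [inc])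
      rwa [hc (.aff 0 0 k1 k2) ⟨rfl, rfl⟩] at this
    generalize σ.1 (.gen x y k1 k2) = q at *
    rw [mem_iff] at e1 e2
    cases q <;> simp only [inc] at e1 e2
    case gen x' y' k3 k4 =>
      have f1 : k3 = k1 := by linear_combination -e2.1
      have f2 : k4 = k2 := by linear_combination -e2.2
      subst f1 f2
      refine ⟨x', y', rfl, ?_, ?_⟩
      · linear_combination e1.1
      · linear_combination e1.2
    case vert k3 k4 =>
      exact absurd (e1.2.trans e2.2.symm) one_ne_zero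
  -- image of one more affine point
  have s3 : ∀ x y : F, σ.1 (.gen x y x (w x y)) ∈ σ.2 (.aff 1 0 0 0 : Pt F) := by
    intro x y
    refine (hσ _ _).mp ?_
    rw [mem_iff]
    constructor
    · linear_combination (-x) * h2
    · linear_combination (-w x y) * h2
  have s4 : (.gen 0 0 0 0 : Ln F) ∈ σ.2 (.aff 1 0 0 0 : Pt F) := by
    have h5 := (hσ (.gen 0 0 0 0) (.aff 1 0 0 0)).mp (by rw [mem_iff]; simp [inc, w])
    rwa [hl (.gen 0 0 0 0) (by rw [mem_iff]; simp [o, inc])] at h5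
  generalize σ.2 (.aff 1 0 0 0 : Pt F) = q at *
  rw [mem_iff] at s4
  cases q <;> simp only [inc] at s4
  case aff p q v1 v2 =>
    have hw0 : w (0 : F) 0 = 0 := by simp [w]
    have f1 : v2 = 0 := by linear_combination s4.2 + p * hw0
    subst f1
    have s5 : ∀ x y : F, p * (x + w x y) + q * (w x y + y) + w x y = 0 := by
      intro x y
      have h5 := s3 x y
      obtain ⟨x', y', h6, h7, h9⟩ := s2 x y x (w x y)
      rw [h6, mem_iff] at h5
      simp only [inc] at h5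
      linear_combination -h5.2 + p * (h7 + x * h2) + q * (h9 + w x y * h2)
    have g1 := s5 0 1
    have g2 := s5 1 0
    have g3 := s5 0 t
    simp only [w] at g1 g2 g3
    have hp : p = 1 := by linear_combination g1 - (q + 1) * h2
    have hq : q = 1 := by linear_combination g2 - (p + 1) * h2
    subst hp hq
    apply ht
    linear_combination g3 - t ^ 2 * h2
  case inf x0 y0 =>
    obtain ⟨rfl, rfl⟩ := s4
    have h5 := s3 0 1
    obtain ⟨x', y', h6, h7, h9⟩ := s2 0 1 0 (w 0 1)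
    rw [h6, mem_iff] at h5
    simp only [inc] at h5
    obtain ⟨rfl, rfl⟩ := h5
    simp [w] at h7

/-- An elation with centre `vert 0 0` and axis `o` fixes the line at infinity. -/
theorem lin_fixed {t : F} (ht : t ^ 2 + t ≠ 0) (σ : Equiv.Perm (Ln F) × Equiv.Perm (Pt F))
    (hσ : Ela (.vert 0 0) σ) : σ.1 .lin = .lin := by
  have h1 : σ.1 .lin ∈ (.top : Pt F) := by
    have := (hσ.1 .lin .top).mp trivial
    rwa [hσ.2.2 .top trivial] at this
  rcases hq : σ.1 .lin with ⟨x, y, k1, k2⟩ | ⟨k1, k2⟩ | _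
  · rw [hq, mem_iff] at h1
    exact absurd h1 id
  · exfalso
    have key : ∀ g ∈ grp (o : Pt F), g.1 .lin = .lin →
        (g * σ * g⁻¹).1 .lin = g.1 (.vert k1 k2) := by
      intro g _ hg
      have h3 : g⁻¹.1 .lin = .lin := by
        have : g⁻¹.1 (g.1 .lin) = .lin := by simp
        rwa [hg] at this
      change g.1 (σ.1 (g⁻¹.1 .lin)) = _
      rw [h3, hq]
    by_cases hk2 : k2 = 0
    · subst hk2
      by_cases hk1 : k1 = 0
      · subst hk1
        have h3 : σ.1 (.vert 0 0) = .vert 0 0 := hσ.2.1 _ ⟨rfl, rfl⟩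
        have h4 := σ.1.injective (hq.trans h3.symm)
        cases h4
      · have hu : k1 * k1⁻¹ = 1 := mul_inv_cancel₀ hk1
        have hm := scal_mem k1⁻¹ k1 hu
        have h3 := key _ hm rfl
        have h4 : (scal k1⁻¹ k1 hu).1 (.vert k1 0) = (.vert 1 0 : Ln F) := by
          change sLn k1⁻¹ (.vert k1 0) = _
          simp only [sLn, mul_zero, inv_mul_cancel₀ hk1]
        have h5 : (scal k1⁻¹ k1 hu).1 (.vert 0 0) = (.vert 0 0 : Ln F) := by
          change sLn k1⁻¹ (.vert 0 0) = _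
          simp only [sLn, mul_zero]
        have h6 := hσ.conj hm
        rw [h5] at h6
        exact no_sigma h2 h8 ht _ h6.1 h6.2.1 h6.2.2 (h3.trans h4)
    · -- first make the first coordinate zero
      have ha : ((k1 * k2⁻¹) ^ 4) ^ 2 * k2 = k1 := by
        rw [← pow_mul, h8, mul_assoc, inv_mul_cancel₀ hk2, mul_one]
      have hm := tau_mem h2 h8 ((k1 * k2⁻¹) ^ 4) 0
      have h3 := key _ hm rfl
      have h4 : (tau h2 h8 ((k1 * k2⁻¹) ^ 4) 0).1 (.vert k1 k2) = (.vert 0 k2 : Ln F) := by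
        change tLn ((k1 * k2⁻¹) ^ 4) 0 (.vert k1 k2) = _
        simp only [tLn, ha]
        congr 1
        linear_combination k1 * h2
      have h5 : (tau h2 h8 ((k1 * k2⁻¹) ^ 4) 0).1 (.vert 0 0) = (.vert 0 0 : Ln F) := by
        change tLn ((k1 * k2⁻¹) ^ 4) 0 (.vert 0 0) = _
        simp [tLn]
      have h6 := hσ.conj hm
      rw [h5] at h6
      have hu : k2 * k2⁻¹ = 1 := mul_inv_cancel₀ hk2
      have hm' := scal_mem k2⁻¹ k2 hu
      have h7 : (scal k2⁻¹ k2 hu).1 (.vert 0 0) = (.vert 0 0 : Ln F) := by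
        change sLn k2⁻¹ (.vert 0 0) = _
        simp only [sLn, mul_zero]
      have h8' := h6.conj hm'
      rw [h7] at h8'
      refine no_sigma' h2 h8 ht _ h8' ?_
      have h9 : (scal k2⁻¹ k2 hu)⁻¹.1 .lin = (.lin : Ln F) := rfl
      change (scal k2⁻¹ k2 hu).1 ((tau h2 h8 ((k1 * k2⁻¹) ^ 4) 0 * σ *
        (tau h2 h8 ((k1 * k2⁻¹) ^ 4) 0)⁻¹).1 ((scal k2⁻¹ k2 hu)⁻¹.1 .lin)) = _
      rw [h9, h3, h4]
      change sLn k2⁻¹ (.vert 0 k2) = _
      simp only [sLn, mul_zero, inv_mul_cancel₀ hk2]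
  · rfl

/-- An elation with centre `vert 0 0` and axis `o` is the identity. -/
theorem eq_one_zero {t : F} (ht : t ^ 2 + t ≠ 0) (σ : Equiv.Perm (Ln F) × Equiv.Perm (Pt F))
    (hσ : Ela (.vert 0 0) σ) : σ = 1 := by
  have hlin := lin_fixed h2 h8 ht σ hσ
  have htop : σ.2 .top = .top := hσ.2.2 .top trivial
  -- uniqueness of the intersection point and of the joining line
  have huP : ∀ (m : Pt F) (a b : Ln F), a ≠ b → a ∈ m → b ∈ m → σ.1 a = a → σ.1 b = b → σ.2 m = m := by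
    intro m a b hab ha hb ha' hb'
    have h3 := (hσ.1 a m).mp ha
    have h4 := (hσ.1 b m).mp hb
    rw [ha'] at h3
    rw [hb'] at h4
    rcases inc_uniq h2 h8 ((mem_iff _ _).mp h3) ((mem_iff _ _).mp ha) ((mem_iff _ _).mp h4)
      ((mem_iff _ _).mp hb) with h | h
    · exact h
    · exact absurd h hab
  have huL : ∀ (a : Ln F) (m n : Pt F), m ≠ n → a ∈ m → a ∈ n → σ.2 m = m → σ.2 n = n → σ.1 a = a := by
    intro a m n hmn ha hb ha' hb'
    have h3 := (hσ.1 a m).mp ha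
    have h4 := (hσ.1 a n).mp hb
    rw [ha'] at h3
    rw [hb'] at h4
    rcases inc_uniq h2 h8 ((mem_iff _ _).mp h3) ((mem_iff _ _).mp h4) ((mem_iff _ _).mp ha)
      ((mem_iff _ _).mp hb) with h | h
    · exact absurd h hmn
    · exact h
  have hinf : ∀ x y : F, σ.2 (.inf x y) = .inf x y := fun x y =>
    huP (.inf x y) .lin (.gen x y 0 0) (by intro h; cases h) trivial ⟨rfl, rfl⟩ hlin
      (hσ.2.1 _ (by rw [mem_iff]; simp [o, inc]))
  have hgen : ∀ x y k1 k2 : F, σ.1 (.gen x y k1 k2) = .gen x y k1 k2 := fun x y k1 k2 =>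
    huL (.gen x y k1 k2) (.inf x y) (.aff 0 0 k1 k2) (by intro h; cases h) ⟨rfl, rfl⟩
      (by rw [mem_iff]; simp [inc]) (hinf x y) (hσ.2.2 _ ⟨rfl, rfl⟩)
  have haff : ∀ u1 u2 v1 v2 : F, σ.2 (.aff u1 u2 v1 v2) = .aff u1 u2 v1 v2 := by
    intro u1 u2 v1 v2
    refine huP _ (.gen 0 0 (v1 - (u1 * 0 + u2 * w 0 0)) (v2 - (u1 * w 0 0 + u2 * 0)))
      (.gen 1 0 (v1 - (u1 * 1 + u2 * w 1 0)) (v2 - (u1 * w 1 0 + u2 * 0))) ?_ ?_ ?_ (hgen _ _ _ _)
      (hgen _ _ _ _)
    · intro h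
      rw [Ln.gen.injEq] at h
      exact zero_ne_one h.1
    · rw [mem_iff]
      constructor <;> ring
    · rw [mem_iff]
      constructor <;> ring
  have hvert : ∀ k1 k2 : F, σ.1 (.vert k1 k2) = .vert k1 k2 := fun k1 k2 =>
    huL _ .top (.aff k1 k2 0 0) (by intro h; cases h) trivial ⟨rfl, rfl⟩ htop (haff _ _ _ _)
  refine Prod.ext (Equiv.ext fun a => ?_) (Equiv.ext fun m => ?_)
  · cases a
    case gen x y k1 k2 => exact hgen x y k1 k2
    case vert k1 k2 => exact hvert k1 k2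
    case lin => exact hlin
  · cases m
    case aff u1 u2 v1 v2 => exact haff u1 u2 v1 v2
    case inf x y => exact hinf x y
    case top => exact htop

/-- Every elation with axis `o` is the identity. -/
theorem elation_eq_one {t : F} (ht : t ^ 2 + t ≠ 0) (σ : Equiv.Perm (Ln F) × Equiv.Perm (Pt F)) (c : Ln F)
    (hc : c ∈ (o : Pt F)) (hσ : Ela c σ) : σ = 1 := by
  obtain ⟨g, hg, hgc⟩ : ∃ g ∈ grp (o : Pt F), g.1 c = .vert 0 0 := by
    by_cases h : c = .gen 0 0 0 0
    · obtain ⟨g, hg, h1, -⟩ := step1 h2 h8 hc (b := .vert 0 0) ⟨rfl, rfl⟩ (by rw [h]; intro h'; cases h')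
      exact ⟨g, hg, h1⟩
    · obtain ⟨g, hg, h1, -⟩ := step1 h2 h8 hc (b := .gen 0 0 0 0) (by rw [mem_iff]; simp [o, inc]) h
      exact ⟨g, hg, h1⟩
  have h3 := hσ.conj hg
  rw [hgc] at h3
  have h4 := eq_one_zero h2 h8 ht _ h3
  have h5 : g * σ = g := by
    have := congrArg (· * g) h4
    simpa using this
  simpa using h5

end alg

end Pool.Agent.Lib.H30Q
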